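import Pool.Agent.U488.HP.Fin

/-!
# The case `k = 0`, `ℓ = 2` at every scale: beyond the classical lower bound `-1/3`

Let `λ` be the Liouville function and `a < b`. The classical elementary argument of Harman, Pintz and
Wolke gives `∑_{n ≤ N} λ(n + a) λ(n + b) ≥ -(1/3 + o(1)) N` if `b - a` is odd. The constant is
attained by other completely multiplicative functions with values `±1`, for example by the function
which is `-1` at `2` and `1` at all the other primes. Here it is proved that for the Liouville
function the bound is not attained at any large scale: there is a `δ > 0` (depending on `a` and `b`) such that the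
sum is at least `-(1/3 - δ) N` for ALL large `N`. The corresponding constants
are `1/2` if `b - a` is twice an odd number and `3/5` if `4` divides `b - a`.

Proof. If the bound was attained at a sequence of scales `M`, then, by the relation between the sums up
to `N`, `N/2` and `N/4` and by positivity, the configuration would be rigid: it would be attained at
all the scales `M / 4 ^ j` (`M / 2 ^ j`) as well, and the averages at all the scales `M / p`, `p` a
prime slightly larger than `4 ^ j`, would be bounded away from `0`. On the other hand by the entropy
decrement argument, applied at the single scale `M`, and by the theorem of Matomäki, Radziwiłł and Tao,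
for `M` arbitrary there is a `j` such that for most of the primes `p` between `4 ^ j` and `2 * 4 ^ j`
the average at the scale `M / p` is close to `0`.
-/

set_option autoImplicit false

namespace Pool.Agent.Results.MP_e6fa8b_nt.EveryScaleBeyondOneThird

open Finset

/-- the Liouville function -/
def liouville (n : ℕ) : ℝ := (-1) ^ ArithmeticFunction.cardFactors n

/-- `1/3` for odd `h`, `1/2` for `h` twice an odd number, `3/5` for `h` divisible by `4` -/
noncomputable def bound (h : ℕ) : ℝ := if h % 2 = 1 then 1 / 3 else if h % 4 = 2 then 1 / 2 else 3 / 5

/-- For all shifts `a < b` there is a `δ > 0` such that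
`∑_{n ≤ N} λ(n + a) λ(n + b) ≥ -(bound (b - a) - δ) N` for all sufficiently large `N`. -/
theorem result (a b : ℕ) (hab : a < b) :
    ∃ δ : ℝ, 0 < δ ∧ ∃ N₀ : ℕ, ∀ N : ℕ, N₀ ≤ N →
      -(bound (b - a) - δ) * N ≤ ∑ n ∈ Icc 1 N, liouville (n + a) * liouville (n + b) :=
  Pool.Agent.U488.HP.lam_shifts a b hab

end Pool.Agent.Results.MP_e6fa8b_nt.EveryScaleBeyondOneThird
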