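import Pool.Agent.U828.KD.ChowZT
import Pool.Agent.H373R2.T7.SupLiou

/-!
# Joint correlations of the von Mangoldt and Liouville functions: one Liouville shift near the values of an arbitrary
function of higher convexity, everything else arbitrary

Fix `d ≥ 2`. Let `f 0` be ANY function on `{1, ..., x 0}`, `x 0 ≥ N ^ (1 / d + η)`, with values in `[-B N, B N]`, whose
differences of order `d` are all at least `N / ((x 0) ^ d log ^ C N)`, or all at most the negative of this number, and let
`f 1, ..., f r` be completely arbitrary functions with values in `[-B N, B N]`, for instance constants. Let each of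
`u 1, ..., u r` be the von Mangoldt function, the Liouville function or any other function bounded by `1`. Then for all but
a proportion `1 / log ^ U N` of the vectors `m` in the box `1 ≤ m i ≤ x i`,

  `|∑ n ≤ X, λ (a 0 n + b 0) u 1 (a 1 n + b 1) ⋯ u r (a r n + b r)| ≤ N / log ^ U N`

for ALL the vectors of integers `b` with `|b i - f i (m i)| ≤ log ^ C N`, all the coefficients `a i ≤ log ^ C N` and all `X`
with `a i X ≤ B N`. So the case `ℓ ≥ 1` of the question (any number of von Mangoldt and of Liouville factors, fixed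
shifts `h` and `h'` except for one Liouville shift `h'`) holds for all the `h'` near almost all the values of an
arbitrary function with `d`-th differences bounded below, for example `∑ n ≤ X, Λ (n) Λ (n + 2) λ (n + h')`. For `d = 2` the
function is strictly convex or concave; for larger `d` the set of the `h'` may have only `N ^ (1 / d + η)` elements (the
values of real polynomials of degree `d`, of `α m ^ c` with `c` no integer, and of completely irregular functions whose
`(d - 1)`-st differences only grow steadily).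

The earlier results of this problem with one moving Liouville shift treat random digits, random sums, automatic
sets, bounded numbers of added powers and short windows.

Proof: the energy theorem `Pool.Agent.U828.KD.energy_r` (helper828: a `d`-th derivative test for arbitrary sequences, and
Fejér kernels), the first moment `Pool.Agent.H373R2.T7.few_e` of the starting files over families of nearly minimal energy,
and `Pool.Agent.U828.KD.joint` (helper828).
-/

set_option autoImplicit false

namespace Pool.Agent.Results.MP_e6fa8b_nt.HigherConvexShifts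

open Finset

/-- The Liouville function on the integers, `0` at the integers `k ≤ 0`. -/
noncomputable def lam (k : ℤ) : ℂ := if 1 ≤ k then (-1) ^ ArithmeticFunction.cardFactors k.toNat else 0

/-- The von Mangoldt function on the integers, `0` at the integers `k ≤ 0`. -/
noncomputable def vm (k : ℤ) : ℂ := ((ArithmeticFunction.vonMangoldt k.toNat : ℝ) : ℂ)

/-- The differences of order `d` of `f` on `{1, ..., x}` are all at least `κ`, or all at most `-κ`. Here `fwdDiff 1 f m`
is the difference `f (m + 1) - f m`. -/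
def Bent (d x : ℕ) (f : ℕ → ℝ) (κ : ℝ) : Prop :=
  (∀ m, 1 ≤ m → m + d ≤ x → κ ≤ (fwdDiff 1)^[d] f m) ∨ (∀ m, 1 ≤ m → m + d ≤ x → (fwdDiff 1)^[d] f m ≤ -κ)

/-- For all the coefficients `1 ≤ a i ≤ log ^ C N`, all the integers `b i` with `|b i - f i (m i)| ≤ log ^ C N` (and
`|b 0| ≤ B N`) and all `X` with `a i X ≤ B N`, the sum of `g n * λ (a 0 n + b 0) * ∏ i, u i (a (i + 1) n + b (i + 1))` over
`n ≤ X` is at most `N / log ^ U N`. -/
def Joint (r B C U N : ℕ) (g : ℕ → ℂ) (u : Fin r → ℤ → ℂ) (f : Fin (r + 1) → ℕ → ℝ) (m : Fin (r + 1) → ℕ) : Prop :=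
  ∀ (a : Fin (r + 1) → ℕ) (b : Fin (r + 1) → ℤ) (X : ℕ), (∀ i, 1 ≤ a i ∧ (a i : ℝ) ≤ Real.log N ^ C) →
    (∀ i, |(b i : ℝ) - f i (m i)| ≤ Real.log N ^ C) → |(b 0 : ℝ)| ≤ B * N → (∀ i, a i * X ≤ B * N) →
    ‖∑ n ∈ Icc 1 X, g n * (lam ((a 0 : ℤ) * n + b 0) * ∏ i : Fin r, u i ((a i.succ : ℤ) * n + b i.succ))‖ ≤
      N / Real.log N ^ U

open Classical in
/-- Let `d ≥ 2`, `r`, `B`, `C`, `U` and `η > 0` be fixed. For all large `N`, all weights `g` bounded by `1`, all functions
`u 1, ..., u r` each of which is the von Mangoldt function or bounded by `1` (for instance the Liouville function), all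
`x 0, ..., x r` with `x 0 ≥ N ^ (1 / d + η)` and all functions `f 0, ..., f r` with values in `[-B N, B N]` such that the
differences of order `d` of `f 0` on `{1, ..., x 0}` are all at least `N / ((x 0) ^ d log ^ C N)`, or all at most the negative
of this number, all the vectors `m`, `1 ≤ m i ≤ x i`, but at most `∏ x i / log ^ U N` satisfy `Joint r B C U N g u f m`. -/
theorem result (d : ℕ) (hd : 2 ≤ d) (r B C U : ℕ) (η : ℝ) (hη : 0 < η) :
    ∃ N₀ : ℕ, ∀ N : ℕ, N₀ ≤ N → ∀ g : ℕ → ℂ, (∀ n, ‖g n‖ ≤ 1) →
    ∀ u : Fin r → ℤ → ℂ, (∀ i, (∀ n, ‖u i n‖ ≤ 1) ∨ u i = vm) →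
    ∀ x : Fin (r + 1) → ℕ, (N : ℝ) ^ (1 / (d : ℝ) + η) ≤ x 0 →
    ∀ f : Fin (r + 1) → ℕ → ℝ, (∀ i, ∀ m ∈ Icc 1 (x i), |f i m| ≤ B * N) →
    Bent d (x 0) (f 0) (N / ((x 0 : ℝ) ^ d * Real.log N ^ C)) →
    (((Fintype.piFinset (fun i => Icc 1 (x i))).filter (fun m => ¬ Joint r B C U N g u f m)).card : ℝ) ≤
      (∏ i, (x i : ℝ)) / Real.log N ^ U := by
  obtain ⟨N₀, h0⟩ := Pool.Agent.U828.KD.joint d hd Pool.Agent.H373R2.T7.liR (fun n => by
    unfold Pool.Agent.H373R2.T7.liR
    rw [norm_pow, norm_neg, norm_one, one_pow]) Pool.Agent.H373R2.T7.sup_liou r B C U U η hη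
  refine ⟨N₀, fun N hN g hg u hu x hx f hf hb => ?_⟩
  apply h0 N hN g hg u hu x hx f hf hb _ (filter_subset _ _)
  intro m hm
  have h1 := (mem_filter.1 hm).2
  unfold Joint at h1
  push Not at h1
  obtain ⟨a, b, X, h2, h3, h4, h5, h6⟩ := h1
  exact ⟨a, b, X, h2, h4, h3, h5, h6⟩

end Pool.Agent.Results.MP_e6fa8b_nt.HigherConvexShifts
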