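import Pool.Agent.U471.RP.Joint3

/-!
# The joint conjecture for all shifts near almost all values of arbitrary real polynomials

Let `f_i` (`i = 1, …, k`) and `g_j` (`j = 1, …, l`) be real polynomials of degree at most `d`, whose coefficient of `t ^ d`
lies between `(log N) ^ (-C)` and `(log N) ^ C`, with values at most `N` in absolute value at `1, …, X`, where
`X ^ d ≥ N / (log N) ^ C` (the degrees and lengths may be different); the other coefficients are arbitrary. For all but a
proportion `(log N) ^ (-U)` of the vectors of arguments, ALL the integer shifts `h_i`, `h'_j` at distance at most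
`(log N) ^ W` from the values satisfy the formulas of the problem: the average of the product of the `Λ(n + h_i)` over every
window of `[0, B N]` is the singular series, and the product is orthogonal to all products of the `λ(n + h'_j)`, also with
further arbitrary bounded weights (for instance further factors `λ(a n + b)`, `Λ(a n + b)`), with errors
`N / (log N) ^ V`. All this is uniform in the polynomials.

Proof: an inverse theorem for Weyl sums (`Pool.Agent.H373R2.NB.IW_all`) shows that the integers near the values have, up to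
powers of `log N`, the least possible additive energy of some order; then the theorem of the starting files on systems of
linear forms in thin families of small energy (`Pool.Agent.TH935.TF`) and the bilinear inequality of the starting files for
functions with small exponential sums (`Pool.Agent.H373R2.T7`, Davenport's theorem for `λ`) apply.
-/

set_option autoImplicit false

namespace Pool.Agent.Results.MP_e6fa8b_nt.RealPolynomials

open Finset Polynomial Filter Topology

/-- the von Mangoldt function on the integers, `0` at the integers `m ≤ 0` -/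
noncomputable def vonMangoldt (m : ℤ) : ℝ := if 1 ≤ m then ArithmeticFunction.vonMangoldt m.toNat else 0

/-- the Liouville function on the integers, `0` at the integers `m ≤ 0`, with complex values -/
noncomputable def liouville (m : ℤ) : ℂ := if 1 ≤ m then (-1) ^ ArithmeticFunction.cardFactors m.toNat else 0

/-- the number of distinct residues modulo `p` among the shifts `h i` -/
def nu {k : ℕ} (h : Fin k → ℤ) (p : ℕ) : ℕ := (univ.image (fun i => h i % (p : ℤ))).card

/-- the product of the factors `(1 - ν(p) / p) / (1 - 1 / p) ^ k` of the singular series over the primes `p ≤ z` -/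
noncomputable def singularSeries {k : ℕ} (h : Fin k → ℤ) (z : ℕ) : ℝ :=
  ∏ p ∈ (Icc 1 z).filter Nat.Prime, (1 - (nu h p : ℝ) / p) / (1 - 1 / (p : ℝ)) ^ k

/-- The formulas of the problem for the shifts `h i`, `h' j` with errors `N / (log N) ^ V`.

(1) If the `h i` are distinct, their singular series converges to a number `S`, and the sum of the product of the
`Λ(n + h i)` over `y₁ < n ≤ y₂` is `S (y₂ - y₁)` up to `N / (log N) ^ V` for all `y₁ ≤ y₂ ≤ B N` such that `n + h i > 0` for
all `n > y₁`.

(2) For every nonempty set `J` of indices, every weight `θ t` and all `y ≤ B N` the sum of `θ t n` times the product of all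
`Λ(n + h i)` and of the `λ(n + h' j)`, `j ∈ J`, over `n ≤ y` is at most `N / (log N) ^ V` in absolute value. -/
def Joint {k l L : ℕ} (B V N : ℕ) (θ : Fin L → ℕ → ℂ) (h : Fin k → ℤ) (h' : Fin l → ℤ) : Prop :=
  (Function.Injective h → ∃ S : ℝ, Tendsto (singularSeries h) atTop (𝓝 S) ∧
    ∀ y₁ y₂ : ℕ, y₁ ≤ y₂ → y₂ ≤ B * N → (∀ i, 0 ≤ (y₁ : ℤ) + h i) →
      |∑ n ∈ Ioc y₁ y₂, ∏ i, vonMangoldt ((n : ℤ) + h i) - S * ((y₂ : ℝ) - y₁)| ≤ N / Real.log N ^ V) ∧
  (∀ J : Finset (Fin l), J.Nonempty → ∀ t, ∀ y ≤ B * N,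
    ‖∑ n ∈ Icc 1 y, θ t n * (∏ i, (vonMangoldt ((n : ℤ) + h i) : ℂ)) * ∏ j ∈ J, liouville ((n : ℤ) + h' j)‖ ≤
      N / Real.log N ^ V)

/-- The real polynomials `f` of degree at most `d`, with `(log N) ^ (-C) ≤ f_d ≤ (log N) ^ C` for the coefficient `f_d`
of `t ^ d`, and with `|f(n)| ≤ N` for `n = 1, …, X`, where `X ^ d ≥ N / (log N) ^ C`. -/
structure Normal (d C N X : ℕ) (f : ℝ[X]) : Prop where
  degree : f.natDegree ≤ d
  lower : 1 / Real.log N ^ C ≤ f.coeff d
  upper : f.coeff d ≤ Real.log N ^ C
  length : (N : ℝ) ≤ Real.log N ^ C * (X : ℝ) ^ d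
  values : ∀ n ∈ Icc 1 X, |f.eval (n : ℝ)| ≤ N

open Classical in
/-- The number of the pairs of vectors `(u, v)`, `1 ≤ u i ≤ X i`, `1 ≤ v j ≤ Y j`, such that `Joint B V N θ h h'` fails for
some integer vectors `h`, `h'` with `|h i - f i (u i)| ≤ (log N) ^ W` and `|h' j - g j (v j)| ≤ (log N) ^ W`. -/
noncomputable def exceptions {k l L : ℕ} (f : Fin k → ℝ[X]) (g : Fin l → ℝ[X]) (B V W N : ℕ) (θ : Fin L → ℕ → ℂ)
    (X : Fin k → ℕ) (Y : Fin l → ℕ) : ℕ :=
  ((Fintype.piFinset (fun i => Icc 1 (X i)) ×ˢ Fintype.piFinset (fun j => Icc 1 (Y j))).filter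
    (fun q : (Fin k → ℕ) × (Fin l → ℕ) => ∃ (h : Fin k → ℤ) (h' : Fin l → ℤ),
      (∀ i, |(h i : ℝ) - (f i).eval (q.1 i : ℝ)| ≤ Real.log N ^ W) ∧
      (∀ j, |(h' j : ℝ) - (g j).eval (q.2 j : ℝ)| ≤ Real.log N ^ W) ∧ ¬ Joint B V N θ h h')).card

open Pool.Agent.TH935.TF
open Pool.Agent.U471.RP (PJ vM nonadm_sum nonadm_small om_image)

lemma sing_eq {k : ℕ} (h : Fin k → ℤ) (z : ℕ) :
    Gz (om (fun _ : Fin k => (1 : ℤ)) h) k z = singularSeries h z := by
  unfold Gz singularSeries
  apply prod_congr rfl
  intro p hp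
  unfold Fq nu
  rw [om_image h p (mem_filter.1 hp).2]

lemma joint_of (k l B V : ℕ) (hB : 1 ≤ B) : ∃ N₀ : ℕ, ∀ N : ℕ, N₀ ≤ N → ∀ (L : ℕ) (θ : Fin L → ℕ → ℂ)
    (β : Fin (k + l) → ℤ), (∀ i, |β i| ≤ (B + 2 : ℕ) * N) →
    PJ k l (B + 2) V N (L, fun t n => if ht : t < L then θ ⟨t, ht⟩ n else 0) β →
    Joint B V N θ (fun i => β (Fin.castAdd l i)) (fun j => β (Fin.natAdd k j)) := by
  obtain ⟨N₀, h0⟩ := nonadm_small k (2 * B + 2) V
  refine ⟨N₀ + 1, fun N hN L θ β hβ hP => ⟨fun hinj => ?_, fun J hJ t y hy => ?_⟩⟩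
  · rcases Nat.eq_zero_or_pos k with hk | hk
    · subst hk
      refine ⟨1, ?_, fun y₁ y₂ hy _ _ => ?_⟩
      · apply Tendsto.congr (f₁ := fun _ => (1 : ℝ)) _ tendsto_const_nhds
        intro z
        unfold singularSeries
        symm
        apply prod_eq_one
        intro p _
        have : nu (fun i : Fin 0 => β (Fin.castAdd l i)) p = 0 := by
          unfold nu
          rw [univ_eq_empty, image_empty, card_empty]
        rw [this]
        simp
      · simp only [univ_eq_empty, prod_empty, sum_const, Nat.card_Ioc, nsmul_eq_mul, mul_one, one_mul]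
        rw [Nat.cast_sub hy, sub_self, abs_zero]
        apply div_nonneg (Nat.cast_nonneg _)
        exact pow_nonneg (Real.log_natCast_nonneg N) _
    · by_cases hadm : Adm (fun _ : Fin k => (1 : ℤ)) (fun i => β (Fin.castAdd l i))
      · have hdist : Dist (fun _ : Fin k => (1 : ℤ)) (fun i => β (Fin.castAdd l i)) := by
          intro i j hij
          refine ⟨fun hc => hij (hinj hc.2), fun hc => ?_⟩
          have h1 : (1 : ℤ) = -1 := hc.1
          omega
        obtain ⟨S, hS, -, -⟩ := limit_full (loc_of hadm hdist (fun _ => one_ne_zero)) hk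
        refine ⟨S, hS.congr (sing_eq _), fun y₁ y₂ hy hy2 hpos => ?_⟩
        have h1 := hP.1 hk hadm hdist S hS y₁ y₂ hy (hy2.trans (Nat.mul_le_mul_right _ (by omega)))
        have e : ∑ n ∈ Ioc y₁ y₂, ∏ i : Fin k, LL ((n : ℤ) + β (Fin.castAdd l i)) =
            ∑ n ∈ Ioc y₁ y₂, ∏ i : Fin k, vonMangoldt ((n : ℤ) + β (Fin.castAdd l i)) := by
          apply sum_congr rfl
          intro n hn
          apply prod_congr rfl
          intro i _
          have h2 : 0 ≤ (y₁ : ℤ) + β (Fin.castAdd l i) := hpos i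
          have h3 := (mem_Ioc.1 hn).1
          unfold LL vonMangoldt
          rw [if_pos (by omega)]
          congr 1
          omega
        rw [e] at h1
        exact h1
      · unfold Adm at hadm
        push Not at hadm
        obtain ⟨p, hp, hr⟩ := hadm
        simp only [one_mul] at hr
        refine ⟨0, ?_, fun y₁ y₂ hy hy2 hpos => ?_⟩
        · apply tendsto_atTop_of_eventually_const (i₀ := p)
          intro z hz
          unfold singularSeries
          apply prod_eq_zero (i := p)
          · rw [mem_filter, mem_Icc]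
            exact ⟨⟨hp.pos, hz⟩, hp⟩
          · have e1 : nu (fun i => β (Fin.castAdd l i)) p = p := by
              unfold nu
              rw [← om_image _ p hp]
              unfold om
              rw [filter_true_of_mem, card_range]
              intro r _
              obtain ⟨i, hi⟩ := hr r
              exact ⟨i, by rw [one_mul]; exact hi⟩
            have hp0 : (p : ℝ) ≠ 0 := by exact_mod_cast hp.ne_zero
            rw [e1, div_self hp0, sub_self, zero_div]
        · rw [zero_mul, sub_zero]
          show |∑ n ∈ Ioc y₁ y₂, ∏ i : Fin k, vM ((n : ℤ) + β (Fin.castAdd l i))| ≤ _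
          rw [abs_of_nonneg (sum_nonneg fun n _ => prod_nonneg fun i _ => Pool.Agent.U471.RP.vM_nonneg _)]
          refine le_trans (nonadm_sum _ p hp hr ((2 * B + 2) * N) y₁ y₂ ?_) ?_
          · intro i
            have h1 := (abs_le.1 (hβ (Fin.castAdd l i))).2
            have h2 : (y₂ : ℤ) ≤ ((B * N : ℕ) : ℤ) := by exact_mod_cast hy2
            push_cast at h1 h2 ⊢
            linarith
          · exact_mod_cast h0 N (by omega)
  · have h1 := hP.2 J hJ t.1 t.2 y (hy.trans (Nat.mul_le_mul_right _ (by omega)))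
    refine le_trans (le_of_eq ?_) h1
    congr 1
    apply sum_congr rfl
    intro n _
    simp only [t.2, dif_pos]
    rfl

/-- **The joint conjecture near the values of real polynomials.** Let `k, l ≥ 0`, `d i ≥ 1`, `d' j ≥ 1` and
`B, C, T, U, V, W` be given. For all sufficiently large `N`, all families of at most `(log N) ^ T` weights
`θ t : ℕ → ℂ` bounded by `(log N) ^ T`, all `X i`, `Y j` and ALL real polynomials `f i`, `g j` with
`Normal (d i) C N (X i) (f i)` and `Normal (d' j) C N (Y j) (g j)`: for all but at most `(∏ X i) (∏ Y j) / (log N) ^ U` of the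
pairs of vectors `(u, v)`, `1 ≤ u i ≤ X i`, `1 ≤ v j ≤ Y j`, ALL the integer vectors `h`, `h'` with
`|h i - f i (u i)| ≤ (log N) ^ W` and `|h' j - g j (v j)| ≤ (log N) ^ W` have the property `Joint B V N θ h h'`. -/
theorem result (k l : ℕ) (d : Fin k → ℕ) (hd : ∀ i, 1 ≤ d i) (d' : Fin l → ℕ) (hd' : ∀ j, 1 ≤ d' j)
    (B C T U V W : ℕ) :
    ∃ N₀ : ℕ, ∀ N : ℕ, N₀ ≤ N → ∀ (L : ℕ) (θ : Fin L → ℕ → ℂ), (L : ℝ) ≤ Real.log N ^ T →
      (∀ t n, ‖θ t n‖ ≤ Real.log N ^ T) →
      ∀ (X : Fin k → ℕ) (f : Fin k → ℝ[X]) (Y : Fin l → ℕ) (g : Fin l → ℝ[X]),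
      (∀ i, Normal (d i) C N (X i) (f i)) → (∀ j, Normal (d' j) C N (Y j) (g j)) →
      (exceptions f g B V W N θ X Y : ℝ) ≤ (∏ i, (X i : ℝ)) * (∏ j, (Y j : ℝ)) / Real.log N ^ U := by
  classical
  obtain ⟨N₁, h1⟩ := joint_of k l (B + 1) V (by omega)
  obtain ⟨N₂, h2⟩ := Pool.Agent.U471.RP.near_par (Θ := ℕ × (ℕ → ℕ → ℂ)) (k + l) (Fin.append d d') (by
      intro i
      refine Fin.addCases (fun i => ?_) (fun i => ?_) i
      · rw [Fin.append_left]; exact hd i
      · rw [Fin.append_right]; exact hd' i) C W U (B + 3) (by omega)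
    (fun N θ => (θ.1 : ℝ) ≤ Real.log N ^ T ∧ ∀ t < θ.1, ∀ n, 1 ≤ n → n ≤ (B + 3) * N → ‖θ.2 t n‖ ≤ Real.log N ^ T)
    (fun N θ β => PJ k l (B + 3) V N θ β)
    (fun h C U _ => Pool.Agent.U471.RP.fam_joint k l h (B + 3) C T V U (by omega))
  obtain ⟨N₃, h3⟩ := Pool.Agent.H373R2.T7.ev_log' (W + 1) 1
  obtain ⟨N₄, h4⟩ := Pool.Agent.H373R2.T7.ev_L' 1
  refine ⟨N₁ + N₂ + N₃ + N₄ + 3, fun N hN L θ hL hθ X f Y g hf hg => ?_⟩
  have hlog := h4 N (by omega)
  have hN0 : (0 : ℝ) < N := by exact_mod_cast (by omega : 0 < N)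
  have hW : Real.log N ^ W ≤ N := by
    have h5 := h3 N (by omega)
    rw [one_mul] at h5
    have h6 : Real.log (N : ℝ) ^ W ≤ Real.log N ^ (W + 1) := pow_le_pow_right₀ hlog (by omega)
    have h7 : √(N : ℝ) ≤ N := by
      rw [Real.sqrt_le_left hN0.le]
      have : (1 : ℝ) ≤ N := by exact_mod_cast (by omega : 1 ≤ N)
      nlinarith
    linarith
  obtain ⟨E, hE⟩ : ∃ E, E = (Fintype.piFinset (fun i => Icc 1 (X i)) ×ˢ Fintype.piFinset (fun j => Icc 1 (Y j))).filter
    (fun q : (Fin k → ℕ) × (Fin l → ℕ) => ∃ (h : Fin k → ℤ) (h' : Fin l → ℤ),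
      (∀ i, |(h i : ℝ) - (f i).eval (q.1 i : ℝ)| ≤ Real.log N ^ W) ∧
      (∀ j, |(h' j : ℝ) - (g j).eval (q.2 j : ℝ)| ≤ Real.log N ^ W) ∧ ¬ Joint B V N θ h h') := ⟨_, rfl⟩
  have hexc : exceptions f g B V W N θ X Y = E.card := by
    rw [hE]
    unfold exceptions
    congr
  rw [hexc]
  have h5 := h2 N (by omega) (L, fun t n => if ht : t < L then θ ⟨t, ht⟩ n else 0) ⟨hL, fun t ht n _ _ => by
    simp only at ht
    simp only [ht, dif_pos]
    exact hθ _ _⟩ (Fin.append X Y) (Fin.append f g) (by
      intro i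
      refine Fin.addCases (fun i => ?_) (fun i => ?_) i
      · rw [Fin.append_left, Fin.append_left, Fin.append_left]
        exact ⟨(hf i).degree, (hf i).lower, (hf i).upper, (hf i).length, (hf i).values⟩
      · rw [Fin.append_right, Fin.append_right, Fin.append_right]
        exact ⟨(hg i).degree, (hg i).lower, (hg i).upper, (hg i).length, (hg i).values⟩)
    (E.image (fun q => Fin.append q.1 q.2)) (by
      intro r hr
      rw [mem_image] at hr
      obtain ⟨q, hq, rfl⟩ := hr
      rw [hE, mem_filter, mem_product, Fintype.mem_piFinset, Fintype.mem_piFinset] at hq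
      rw [Fintype.mem_piFinset]
      intro i
      refine Fin.addCases (fun i => ?_) (fun i => ?_) i
      · rw [Fin.append_left, Fin.append_left]; exact hq.1.1 i
      · rw [Fin.append_right, Fin.append_right]; exact hq.1.2 i) (by
      intro r hr
      rw [mem_image] at hr
      obtain ⟨q, hq, rfl⟩ := hr
      rw [hE, mem_filter, mem_product, Fintype.mem_piFinset, Fintype.mem_piFinset] at hq
      obtain ⟨⟨hq1, hq2⟩, h, h', g1, g2, g3⟩ := hq
      refine ⟨Fin.append h h', ?_, ?_⟩
      · intro i
        refine Fin.addCases (fun i => ?_) (fun i => ?_) i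
        · rw [Fin.append_left, Fin.append_left, Fin.append_left]; exact g1 i
        · rw [Fin.append_right, Fin.append_right, Fin.append_right]; exact g2 i
      · intro hP
        apply g3
        have bd : ∀ (a : ℤ) (r : ℝ), |(a : ℝ) - r| ≤ Real.log N ^ W → |r| ≤ N → |a| ≤ ((B + 1 + 2 : ℕ) : ℤ) * N := by
          intro a r ha hr
          have h7 : |(a : ℝ)| ≤ 2 * N := by
            calc |(a : ℝ)| = |((a : ℝ) - r) + r| := by congr 1; ring
              _ ≤ |(a : ℝ) - r| + |r| := abs_add_le _ _
              _ ≤ 2 * N := by linarith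
          have h8 : |a| ≤ 2 * (N : ℤ) := by exact_mod_cast h7
          refine h8.trans ?_
          apply mul_le_mul_of_nonneg_right _ (by positivity)
          push_cast
          have : (0 : ℤ) ≤ B := Int.natCast_nonneg _
          linarith
        have h6 := h1 N (by omega) L θ (Fin.append h h') (by
          intro i
          refine Fin.addCases (fun i => ?_) (fun i => ?_) i
          · rw [Fin.append_left]
            exact bd _ _ (g1 i) ((hf i).values _ (hq1 i))
          · rw [Fin.append_right]
            exact bd _ _ (g2 i) ((hg i).values _ (hq2 i))) hP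
        simp only [Fin.append_left, Fin.append_right] at h6
        refine ⟨fun hinj => ?_, fun J hJ t y hy => ?_⟩
        · obtain ⟨S, hS, h7⟩ := h6.1 hinj
          exact ⟨S, hS, fun y₁ y₂ hy hy2 hpos => h7 y₁ y₂ hy (hy2.trans (Nat.mul_le_mul_right _ (by omega))) hpos⟩
        · exact h6.2 J hJ t y (hy.trans (Nat.mul_le_mul_right _ (by omega))))
  rw [card_image_of_injective _ (by
    intro q q' hqq
    have h6 : ∀ i, Fin.append q.1 q.2 i = Fin.append q'.1 q'.2 i := fun i => congrFun hqq i
    apply Prod.ext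
    · funext i
      have := h6 (Fin.castAdd l i)
      rwa [Fin.append_left, Fin.append_left] at this
    · funext i
      have := h6 (Fin.natAdd k i)
      rwa [Fin.append_right, Fin.append_right] at this)] at h5
  refine h5.trans (le_of_eq ?_)
  rw [Fin.prod_univ_add]
  congr 2
  · apply prod_congr rfl
    intro i _
    rw [Fin.append_left]
  · apply prod_congr rfl
    intro i _
    rw [Fin.append_right]

end Pool.Agent.Results.MP_e6fa8b_nt.RealPolynomials
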